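import Mathlib

/-!
# MP_8ced64_co: the constant of the square lattice is the constant of the plane
-/

set_option autoImplicit false

namespace Pool.Agent.Results.MP_8ced64_co.PlanarConstant

open Metric Filter Topology

/-- The Euclidean plane. -/
abbrev Plane : Type := EuclideanSpace ℝ (Fin 2)

/-- `S` is coverable: there is a set of centres of closed unit disks with pairwise disjoint
interiors whose union contains `S`. -/
def Coverable (S : Set Plane) : Prop :=
  ∃ C : Set Plane,
    (C.Pairwise fun c c' => Disjoint (interior (closedBall c 1)) (interior (closedBall c' 1))) ∧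
    S ⊆ ⋃ c ∈ C, closedBall c 1

/-- The square lattice `L_d`. -/
def sqLattice (d : ℝ) : Set Plane :=
  {p | ∃ a b : ℤ, p 0 = d * a ∧ p 1 = d * b}

/-- Tuples of centres, any two equal or at distance at least `2`. -/
def Pack (n : ℕ) : Set (Fin n → Plane) :=
  {c | ∀ i j, c i = c j ∨ 2 ≤ dist (c i) (c j)}

theorem pack_closed (n : ℕ) : IsClosed (Pack n) := by
  have : Pack n = ⋂ i, ⋂ j, ({c : Fin n → Plane | c i = c j} ∪ {c | 2 ≤ dist (c i) (c j)}) := by
    ext c
    simp [Pack]
  rw [this]
  refine isClosed_iInter fun i => isClosed_iInter fun j => ?_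
  refine IsClosed.union ?_ ?_
  · exact isClosed_eq (continuous_apply i) (continuous_apply j)
  · exact isClosed_le continuous_const ((continuous_apply i).dist (continuous_apply j))

/-- Tuples of points covered by a packing. -/
def Cov (n : ℕ) : Set (Fin n → Plane) :=
  {x | ∃ c ∈ Pack n, ∀ i, dist (x i) (c i) ≤ 1}

theorem cov_closed (n : ℕ) : IsClosed (Cov n) := by
  rw [← isSeqClosed_iff_isClosed]
  intro x a hx hxa
  choose c hc hd using hx
  obtain ⟨R, hR⟩ : ∃ R : ℝ, ∀ k, dist (x k) a ≤ R := by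
    have h1 : Tendsto (fun k => dist (x k) a) atTop (𝓝 0) := tendsto_iff_dist_tendsto_zero.mp hxa
    obtain ⟨R, hR⟩ := h1.bddAbove_range
    exact ⟨R, fun k => hR ⟨k, rfl⟩⟩
  have hR0 : 0 ≤ R := dist_nonneg.trans (hR 0)
  have hb : ∀ k, c k ∈ closedBall a (1 + R) := by
    intro k
    rw [mem_closedBall]
    refine (dist_triangle _ (x k) _).trans ?_
    refine add_le_add ?_ (hR k)
    rw [dist_pi_le_iff zero_le_one]
    intro i
    rw [dist_comm]
    exact hd k i
  obtain ⟨b, -, φ, hφ, hb⟩ := tendsto_subseq_of_bounded isBounded_closedBall hb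
  refine ⟨b, (pack_closed n).mem_of_tendsto hb (Eventually.of_forall fun k => hc _), fun i => ?_⟩
  have h1 : Tendsto (fun k => x (φ k) i) atTop (𝓝 (a i)) :=
    ((continuous_apply i).tendsto a).comp (hxa.comp hφ.tendsto_atTop)
  have h2 : Tendsto (fun k => c (φ k) i) atTop (𝓝 (b i)) :=
    ((continuous_apply i).tendsto b).comp hb
  exact le_of_tendsto (h1.dist h2) (Eventually.of_forall fun k => hd _ i)

theorem disj_iff (c c' : Plane) :
    Disjoint (interior (closedBall c 1)) (interior (closedBall c' 1)) ↔ 2 ≤ dist c c' := by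
  rw [interior_closedBall _ one_ne_zero, interior_closedBall _ one_ne_zero,
    disjoint_ball_ball_iff zero_lt_one zero_lt_one]
  norm_num

theorem cov_iff {n : ℕ} (x : Fin n → Plane) : x ∈ Cov n ↔ Coverable (Set.range x) := by
  constructor
  · rintro ⟨c, hc, hd⟩
    refine ⟨Set.range c, ?_, ?_⟩
    · rintro _ ⟨i, rfl⟩ _ ⟨j, rfl⟩ hij
      rw [disj_iff]
      exact (hc i j).resolve_left hij
    · rintro _ ⟨i, rfl⟩
      simp only [Set.mem_iUnion]
      exact ⟨c i, ⟨i, rfl⟩, mem_closedBall.2 (hd i)⟩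
  · rintro ⟨C, hC, hS⟩
    have : ∀ i, ∃ c ∈ C, dist (x i) c ≤ 1 := by
      intro i
      have := hS ⟨i, rfl⟩
      simp only [Set.mem_iUnion] at this
      obtain ⟨c, hc, h⟩ := this
      exact ⟨c, hc, mem_closedBall.1 h⟩
    choose c hc hd using this
    refine ⟨c, fun i j => ?_, hd⟩
    by_cases h : c i = c j
    · exact Or.inl h
    · exact Or.inr ((disj_iff _ _).1 (hC (hc i) (hc j) h))

/-- rounding down to the lattice -/
noncomputable def rnd (d : ℝ) (p : Plane) : Plane := !₂[d * ⌊p 0 / d⌋, d * ⌊p 1 / d⌋]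

theorem rnd_mem (d : ℝ) (p : Plane) : rnd d p ∈ sqLattice d :=
  ⟨⌊p 0 / d⌋, ⌊p 1 / d⌋, by simp [rnd], by simp [rnd]⟩

theorem rnd_dist {d : ℝ} (hd : 0 < d) (p : Plane) : dist (rnd d p) p < 2 * d := by
  have key : ∀ t : ℝ, (d * ⌊t / d⌋ - t) ^ 2 ≤ d ^ 2 := by
    intro t
    have h1 := Int.floor_le (t / d)
    have h2 := Int.lt_floor_add_one (t / d)
    rw [le_div_iff₀ hd] at h1
    rw [div_lt_iff₀ hd] at h2
    apply sq_le_sq'
    · nlinarith
    · nlinarith
  rw [EuclideanSpace.dist_eq, Fin.sum_univ_two, Real.sqrt_lt' (by positivity)]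
  rw [Real.dist_eq, Real.dist_eq, sq_abs, sq_abs]
  have h0 := key (p 0)
  have h1 := key (p 1)
  simp only [rnd, PiLp.toLp_apply, Matrix.cons_val_zero, Matrix.cons_val_one,
    Matrix.cons_val_fin_one]
  nlinarith [pow_pos hd 2]

/-- A non-coverable set of `n` points gives such subsets of all fine square lattices. -/
theorem fine (n : ℕ) (S : Finset Plane) (hS : S.card = n) (h : ¬ Coverable (S : Set Plane)) :
    ∃ δ : ℝ, 0 < δ ∧ ∀ d : ℝ, 0 < d → d < δ →
      ∃ T : Finset Plane, T.card = n ∧ (T : Set Plane) ⊆ sqLattice d ∧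
        ¬ Coverable (T : Set Plane) := by
  classical
  obtain ⟨e⟩ : Nonempty (Fin n ≃ S) := ⟨(S.equivFinOfCardEq hS).symm⟩
  set x : Fin n → Plane := fun i => (e i : Plane) with hxdef
  have hxr : Set.range x = (S : Set Plane) := by
    ext p
    constructor
    · rintro ⟨i, rfl⟩
      exact (e i).2
    · intro hp
      exact ⟨e.symm ⟨p, hp⟩, by simp [hxdef]⟩
  have hxinj : Function.Injective x := fun i j hij => e.injective (Subtype.ext hij)
  have hU : IsOpen ((Cov n)ᶜ ∩ {y : Fin n → Plane | Function.Injective y}) := by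
    refine (cov_closed n).isOpen_compl.inter ?_
    have : {y : Fin n → Plane | Function.Injective y} =
        ⋂ i, ⋂ j, {y : Fin n → Plane | i ≠ j → y i ≠ y j} := by
      ext y
      simp only [Set.mem_ofPred_eq, Set.mem_iInter]
      exact ⟨fun hy i j hij he => hij (hy he), fun hy i j he => by
        by_contra hne
        exact hy i j hne he⟩
    rw [this]
    refine isOpen_iInter_of_finite fun i => isOpen_iInter_of_finite fun j => ?_
    by_cases hij : i = j
    · simp [hij]
    · have : {y : Fin n → Plane | i ≠ j → y i ≠ y j} = {y : Fin n → Plane | y i = y j}ᶜ := by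
        ext y
        simp [hij]
      rw [this]
      exact (isClosed_eq (continuous_apply i) (continuous_apply j)).isOpen_compl
  have hxU : x ∈ ((Cov n)ᶜ ∩ {y : Fin n → Plane | Function.Injective y}) := by
    refine ⟨fun hc => h ?_, hxinj⟩
    rw [← hxr]
    exact (cov_iff x).1 hc
  obtain ⟨ε, hε, hball⟩ := Metric.isOpen_iff.1 hU x hxU
  refine ⟨ε / 2, half_pos hε, fun d hd hdε => ?_⟩
  set y : Fin n → Plane := fun i => rnd d (x i) with hydef
  have hy : y ∈ ball x ε := by
    rw [mem_ball, dist_pi_lt_iff hε]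
    intro i
    exact (rnd_dist hd (x i)).trans (by linarith)
  obtain ⟨hy1, hy2⟩ := hball hy
  refine ⟨Finset.univ.image y, ?_, ?_, ?_⟩
  · rw [Finset.card_image_of_injective _ hy2]
    simp
  · intro p hp
    simp only [Finset.coe_image, Finset.coe_univ, Set.image_univ] at hp
    obtain ⟨i, rfl⟩ := hp
    exact rnd_mem d (x i)
  · intro hc
    apply hy1
    rw [cov_iff]
    simpa using hc

/-- For every `n`: all `n`-point subsets of all square lattices `L_d` are coverable iff all
`n`-point subsets of the plane are coverable; and every single sufficiently fine square lattice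
decides this: for some `δ > 0` and all `0 < d < δ`, all `n`-point subsets of `L_d` are coverable
iff all `n`-point subsets of the plane are coverable. -/
theorem result (n : ℕ) :
    ((∀ d : ℝ, 0 < d → ∀ S : Finset Plane, S.card = n → (S : Set Plane) ⊆ sqLattice d →
        Coverable (S : Set Plane)) ↔
      ∀ S : Finset Plane, S.card = n → Coverable (S : Set Plane)) ∧
    ∃ δ : ℝ, 0 < δ ∧ ∀ d : ℝ, 0 < d → d < δ →
      ((∀ S : Finset Plane, S.card = n → (S : Set Plane) ⊆ sqLattice d →
          Coverable (S : Set Plane)) ↔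
        ∀ S : Finset Plane, S.card = n → Coverable (S : Set Plane)) := by
  refine ⟨⟨fun h S hS => ?_, fun h d _ S hS _ => h S hS⟩, ?_⟩
  · by_contra hc
    obtain ⟨δ, hδ, hall⟩ := fine n S hS hc
    obtain ⟨T, hT, hTL, hTc⟩ := hall (δ / 2) (half_pos hδ) (half_lt_self hδ)
    exact hTc (h (δ / 2) (half_pos hδ) T hT hTL)
  · by_cases hall : ∀ S : Finset Plane, S.card = n → Coverable (S : Set Plane)
    · exact ⟨1, one_pos, fun d _ _ => ⟨fun _ => hall, fun h S hS _ => h S hS⟩⟩
    · push Not at hall
      obtain ⟨S, hS, hc⟩ := hall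
      obtain ⟨δ, hδ, hfine⟩ := fine n S hS hc
      refine ⟨δ, hδ, fun d hd0 hd => ⟨fun h => ?_, fun h S hS _ => h S hS⟩⟩
      obtain ⟨T, hT, hTL, hTc⟩ := hfine d hd0 hd
      exact absurd (h T hT hTL) hTc

end Pool.Agent.Results.MP_8ced64_co.PlanarConstant
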