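import Pool.Agent.Results.MP_8ced64_co.WideSpacing

/-!
# MP_8ced64_co: thirteen points of a square lattice

A periodic packing which misses less than one point in thirteen of `L_d` covers every set of
thirteen points of `L_d` after a suitable translation by a lattice vector.
-/

set_option autoImplicit false

namespace Pool.Agent.Results.MP_8ced64_co.ThirteenPoints

open Metric Pool.Agent.Results.MP_8ced64_co.WideSpacing

/-- the square of the difference -/
def ds (x y : ℕ) : ℕ := (x - y) ^ 2 + (y - x) ^ 2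

theorem ds_eq (x y : ℕ) : ((ds x y : ℕ) : ℤ) = ((x : ℤ) - y) ^ 2 := by
  unfold ds
  rcases le_total x y with h | h
  · rw [Nat.sub_eq_zero_of_le h]
    push_cast [Nat.cast_sub h]
    ring
  · rw [Nat.sub_eq_zero_of_le h]
    push_cast [Nat.cast_sub h]
    ring

/-- The finite check of a periodic pattern: centres `D` in units `1 / g`, periods `(a, 0)` and
`(b, c)`, squared separation `S / g ^ 2`, squared covering radius `R / g ^ 2`, missed classes
`E`, at most `N` points. -/
def chkT (g a b c J S R N : ℕ) (D E : List (ℕ × ℕ)) : Bool :=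
  (D.all fun u => Nat.ble u.1 (g * a) && Nat.ble u.2 (g * c)) &&
  (D.all fun u => D.all fun v => (List.range (2 * J + 1)).all fun j =>
    (Nat.beq u.1 v.1 && Nat.beq u.2 v.2 && Nat.beq j J) ||
    Nat.ble S (tor (g * a) (u.1 + g * (b * j + (a - b) * J)) v.1 ^ 2 +
      ds (u.2 + g * c * j) (v.2 + g * c * J))) &&
  ((List.range a).all fun x => (List.range c).all fun y =>
    (E.any fun e => Nat.beq e.1 x && Nat.beq e.2 y) || D.any fun u =>
    (List.range (2 * J + 1)).any fun j =>
    Nat.ble (tor (g * a) (g * x + g * (b * j + (a - b) * J)) u.1 ^ 2 +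
      ds (g * y + g * c * j) (u.2 + g * c * J)) R) &&
  Nat.ble S ((g * a) ^ 2) && Nat.ble S ((g * c * J) ^ 2) && Nat.ble b a &&
  Nat.ble (N * E.length + 1) (a * c)

/-- A pattern of centres gives a covering of a part of `L_d`. -/
theorem pattern' (d : ℝ) (A : Set Plane) (C : Set (ℝ × ℝ)) (s r : ℝ)
    (hsep : ∀ c ∈ C, ∀ c' ∈ C, c ≠ c' → s ≤ (c.1 - c'.1) ^ 2 + (c.2 - c'.2) ^ 2)
    (hcov : ∀ p ∈ A, ∃ a b : ℤ, p 0 = d * a ∧ p 1 = d * b ∧
      ∃ c ∈ C, ((a : ℝ) - c.1) ^ 2 + (b - c.2) ^ 2 ≤ r)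
    (hs : 4 ≤ d ^ 2 * s) (hr : d ^ 2 * r ≤ 1) : Coverable A := by
  refine ⟨(fun c : ℝ × ℝ => (!₂[d * c.1, d * c.2] : Plane)) '' C, ?_, ?_⟩
  · rintro _ ⟨c, hc, rfl⟩ _ ⟨c', hc', rfl⟩ hne
    have hcc : c ≠ c' := fun h => hne (by rw [h])
    have h1 := hsep c hc c' hc' hcc
    rw [disj_iff]
    refine abs_le_of_sq_le_sq' ?_ dist_nonneg |>.2
    rw [dist_sq]
    simp only [Matrix.cons_val_zero, Matrix.cons_val_one, Matrix.cons_val_fin_one]
    nlinarith [mul_le_mul_of_nonneg_left h1 (sq_nonneg d)]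
  · intro p hp
    obtain ⟨a, b, ha, hb, c, hc, h⟩ := hcov p hp
    simp only [Set.mem_iUnion]
    refine ⟨_, ⟨c, hc, rfl⟩, ?_⟩
    rw [mem_closedBall]
    refine abs_le_of_sq_le_sq' ?_ zero_le_one |>.2
    rw [dist_sq]
    simp only [Matrix.cons_val_zero, Matrix.cons_val_one, Matrix.cons_val_fin_one]
    rw [ha, hb]
    nlinarith [mul_le_mul_of_nonneg_left h (sq_nonneg d)]

/-- the class of an integer modulo `P`, as a natural number -/
def cls (P : ℕ) (a : ℤ) : ℕ := (a % P).toNat

theorem cls_spec {P : ℕ} (hP : 0 < P) (a : ℤ) :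
    cls P a < P ∧ a = P * (a / P) + (cls P a : ℤ) := by
  have hPz : (0 : ℤ) < P := by exact_mod_cast hP
  have ha0 := Int.emod_nonneg a hPz.ne'
  have ha1 := Int.emod_lt_of_pos a hPz
  have hda := Int.mul_ediv_add_emod a P
  have hc : (cls P a : ℤ) = a % P := Int.toNat_of_nonneg ha0
  exact ⟨by omega, by rw [hc]; exact hda.symm⟩

theorem cls_inj {P : ℕ} (hP : 0 < P) (a : ℤ) {i j : ℕ} (hi : i < P) (hj : j < P)
    (h : cls P (a + i) = cls P (a + j)) : i = j := by
  obtain ⟨-, h1⟩ := cls_spec hP (a + i)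
  obtain ⟨-, h2⟩ := cls_spec hP (a + j)
  rw [← h] at h2
  have h3 : (i : ℤ) - j = P * ((a + i) / P - (a + j) / P) := by linarith
  have hPz : (0 : ℤ) < P := by exact_mod_cast hP
  have h4 : (a + i) / P - (a + j) / P = 0 := by
    generalize (a + i) / (P : ℤ) - (a + j) / P = k at h3
    by_contra hk
    have hi' : (i : ℤ) < P := by exact_mod_cast hi
    have hj' : (j : ℤ) < P := by exact_mod_cast hj
    rcases lt_or_gt_of_ne hk with hk' | hk'
    · have : (P : ℤ) * k ≤ P * (-1) := mul_le_mul_of_nonneg_left (by omega) hPz.le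
      omega
    · have : (P : ℤ) * 1 ≤ P * k := mul_le_mul_of_nonneg_left (by omega) hPz.le
      omega
  rw [h4] at h3
  omega

theorem of_chkT {g a b c J S R N : ℕ} {D E : List (ℕ × ℕ)}
    (h : chkT g a b c J S R N D E = true) (hg : 0 < g) (ha : 0 < a) (hc : 0 < c) (d : ℝ)
    (hs : 4 * (g : ℝ) ^ 2 ≤ d ^ 2 * S) (hr : d ^ 2 * R ≤ (g : ℝ) ^ 2) (A : Finset Plane)
    (hA : A.card ≤ N) (hAd : (A : Set Plane) ⊆ sqLattice d) : Coverable (A : Set Plane) := by
  classical
  simp only [chkT, Bool.and_eq_true, List.all_eq_true, Nat.ble_eq, Bool.or_eq_true,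
    Nat.beq_eq, List.any_eq_true, List.mem_range] at h
  obtain ⟨⟨⟨⟨⟨⟨h0, h1⟩, h2⟩, h3⟩, h3'⟩, hba⟩, h4⟩ := h
  set M := g * a with hMdef
  have hM : 0 < M := Nat.mul_pos hg ha
  have hgR : (0 : ℝ) < g := by exact_mod_cast hg
  have hg2 : (0 : ℝ) < (g : ℝ) ^ 2 := by positivity
  have hMz : (M : ℤ) = g * a := by rw [hMdef]; push_cast; ring
  have hAd' : ∀ p : Plane, ∃ a b : ℤ, p ∈ A → p 0 = d * a ∧ p 1 = d * b := by
    intro p
    by_cases hp : p ∈ A
    · obtain ⟨a, b, ha, hb⟩ := hAd hp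
      exact ⟨a, b, fun _ => ⟨ha, hb⟩⟩
    · exact ⟨0, 0, fun h => absurd h hp⟩
  choose fa fb hf using hAd'
  -- the class of the point `p` moved by `t`
  set q : Plane → ℕ → ℤ := fun p j => (fb p + j) / (c : ℤ) with hq
  set Y : Plane → ℕ → ℕ := fun p j => cls c (fb p + j) with hY
  set X : Plane → ℕ → ℕ → ℕ := fun p i j => cls a (fa p - b * q p j + i) with hX
  set T : Finset (ℕ × ℕ) := Finset.range a ×ˢ Finset.range c with hT
  set B : Plane → Finset (ℕ × ℕ) := fun p =>
    T.filter fun t => (X p t.1 t.2, Y p t.2) ∈ E with hB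
  have hBcard : ∀ p, (B p).card ≤ E.length := by
    intro p
    refine le_trans ?_ (List.toFinset_card_le E)
    refine Finset.card_le_card_of_injOn (fun t => (X p t.1 t.2, Y p t.2)) ?_ ?_
    · intro t ht
      have := (Finset.mem_filter.1 (Finset.mem_coe.1 ht)).2
      simpa using this
    · intro t ht t' ht' he
      have m1 := (Finset.mem_filter.1 (Finset.mem_coe.1 ht)).1
      have m2 := (Finset.mem_filter.1 (Finset.mem_coe.1 ht')).1
      rw [hT, Finset.mem_product, Finset.mem_range, Finset.mem_range] at m1 m2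
      have e1 : X p t.1 t.2 = X p t'.1 t'.2 := congrArg Prod.fst he
      have e2 : Y p t.2 = Y p t'.2 := congrArg Prod.snd he
      have e3 : t.2 = t'.2 := cls_inj hc _ m1.2 m2.2 e2
      rw [e3] at e1
      have e4 : t.1 = t'.1 := cls_inj ha _ m1.1 m2.1 e1
      exact Prod.ext e4 e3
  have hUn : (A.biUnion B).card < T.card := by
    calc (A.biUnion B).card ≤ A.card * E.length :=
          Finset.card_biUnion_le_card_mul _ _ _ fun p _ => hBcard p
      _ ≤ N * E.length := Nat.mul_le_mul_right _ hA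
      _ < a * c := by omega
      _ = T.card := by rw [hT, Finset.card_product, Finset.card_range, Finset.card_range]
  obtain ⟨t, htT, htB⟩ := Finset.exists_mem_notMem_of_card_lt_card hUn
  obtain ⟨i, j⟩ := t
  refine pattern' d A {z | ∃ e ∈ D, ∃ m n : ℤ,
    z.1 = ((e.1 : ℝ) + g * (a * m + b * n)) / g - i ∧
    z.2 = ((e.2 : ℝ) + g * (c * n)) / g - j} (S / g ^ 2) (R / g ^ 2) ?_ ?_ ?_ ?_
  · rintro ⟨z1, z2⟩ ⟨e, he, m, n, hz1, hz2⟩ ⟨z1', z2'⟩ ⟨e', he', m', n', hz1', hz2'⟩ hne
    simp only at hz1 hz2 hz1' hz2' ⊢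
    have key : (S : ℤ) ≤ ((e.1 : ℤ) - e'.1 + g * (a * (m - m') + b * (n - n'))) ^ 2 +
        ((e.2 : ℤ) - e'.2 + g * (c * (n - n'))) ^ 2 := by
      have hy0 : (e.2 : ℤ) ≤ g * c := by exact_mod_cast (h0 e he).2
      have hy0' : (e'.2 : ℤ) ≤ g * c := by exact_mod_cast (h0 e' he').2
      have hg0 : (0 : ℤ) < g := by exact_mod_cast hg
      have hc0 : (0 : ℤ) < c := by exact_mod_cast hc
      have hgc : (0 : ℤ) < g * c := mul_pos hg0 hc0
      have hS3 : (S : ℤ) ≤ ((g : ℤ) * c * J) ^ 2 := by exact_mod_cast h3'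
      rcases lt_or_ge (J : ℤ) (|n - n'|) with hJ | hJ
      · -- far rows
        have hbig : (g : ℤ) * c * J ≤ |(e.2 : ℤ) - e'.2 + g * (c * (n - n'))| := by
          rcases le_or_gt 0 (n - n') with hn | hn
          · rw [abs_of_nonneg hn] at hJ
            refine le_trans ?_ (le_abs_self _)
            nlinarith [Int.natCast_nonneg e.2]
          · rw [abs_of_neg hn] at hJ
            refine le_trans ?_ (neg_le_abs _)
            nlinarith [Int.natCast_nonneg e'.2]
        have : ((g : ℤ) * c * J) ^ 2 ≤ ((e.2 : ℤ) - e'.2 + g * (c * (n - n'))) ^ 2 := by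
          rw [← sq_abs ((e.2 : ℤ) - e'.2 + g * (c * (n - n')))]
          exact pow_le_pow_left₀ (by positivity) hbig 2
        nlinarith [sq_nonneg ((e.1 : ℤ) - e'.1 + g * (a * (m - m') + b * (n - n')))]
      · -- near rows
        obtain ⟨k, hk⟩ : ∃ k : ℕ, (k : ℤ) = (n - n') + J := by
          have := neg_abs_le (n - n')
          exact ⟨((n - n') + J).toNat, Int.toNat_of_nonneg (by omega)⟩
        have hk2 : k < 2 * J + 1 := by
          have := le_abs_self (n - n')
          omega
        rcases h1 e he e' he' k hk2 with ⟨⟨ha', hb'⟩, hkJ⟩ | hS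
        · have hn0 : n - n' = 0 := by omega
          have hm : m ≠ m' := by
            intro hm
            apply hne
            have hn : n = n' := by omega
            rw [hz1, hz2, hz1', hz2', ha', hb', hm, hn]
          have hS2 : (S : ℤ) ≤ (M : ℤ) ^ 2 := by exact_mod_cast h3
          rw [ha', hb', hn0]
          have hsq : 1 ≤ (m - m') ^ 2 := by
            have := pow_pos (abs_pos.2 (sub_ne_zero.2 hm)) 2
            rw [sq_abs] at this
            omega
          have e5 : ((e'.1 : ℤ) - e'.1 + g * (a * (m - m') + b * 0)) ^ 2 +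
              ((e'.2 : ℤ) - e'.2 + g * (c * 0)) ^ 2 = (M : ℤ) ^ 2 * (m - m') ^ 2 := by
            rw [hMz]
            ring
          rw [e5]
          nlinarith [sq_nonneg (M : ℤ)]
        · have hS' : (S : ℤ) ≤ ((tor M (e.1 + g * (b * k + (a - b) * J)) e'.1 : ℕ) : ℤ) ^ 2 +
              ((ds (e.2 + g * c * k) (e'.2 + g * c * J) : ℕ) : ℤ) := by
            exact_mod_cast hS
          refine hS'.trans (add_le_add ?_ ?_)
          · have ht := tor_le (M := M) (x := e.1 + g * (b * k + (a - b) * J)) hM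
              (h0 e' he').1 (m - m' - J)
            have e6 : ((e.1 + g * (b * k + (a - b) * J) : ℕ) : ℤ) - e'.1 +
                M * (m - m' - J) = (e.1 : ℤ) - e'.1 + g * (a * (m - m') + b * (n - n')) := by
              have hk' : (n - n') = (k : ℤ) - J := by linarith
              rw [hk', hMz]
              push_cast [Nat.cast_sub hba]
              ring
            rw [e6] at ht
            rw [← sq_abs ((e.1 : ℤ) - e'.1 + g * (a * (m - m') + b * (n - n')))]
            exact pow_le_pow_left₀ (Int.natCast_nonneg _) ht 2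
          · rw [ds_eq]
            have hk' : (n - n') = (k : ℤ) - J := by linarith
            rw [hk']
            apply le_of_eq
            push_cast
            ring
    have key' : (S : ℝ) ≤ ((e.1 : ℝ) - e'.1 + g * (a * (m - m') + b * (n - n'))) ^ 2 +
        ((e.2 : ℝ) - e'.2 + g * (c * (n - n'))) ^ 2 := by exact_mod_cast key
    rw [hz1, hz2, hz1', hz2', div_le_iff₀ hg2]
    refine key'.trans (le_of_eq ?_)
    field_simp
    ring
  · intro p hp
    obtain ⟨pa, pb⟩ := hf p hp
    refine ⟨fa p, fb p, pa, pb, ?_⟩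
    have hnB : (X p i j, Y p j) ∉ E := by
      intro hE
      exact htB (Finset.mem_biUnion.2 ⟨p, hp, Finset.mem_filter.2 ⟨htT, hE⟩⟩)
    obtain ⟨hβ, hdb⟩ := cls_spec hc (fb p + j)
    obtain ⟨hα, hda⟩ := cls_spec ha (fa p - b * q p j + i)
    obtain ⟨u, hu, k, hk, hR⟩ := (h2 (X p i j) hα (Y p j) hβ).resolve_left (by
      rintro ⟨e, he, e1, e2⟩
      apply hnB
      have : (X p i j, Y p j) = e := Prod.ext e1.symm e2.symm
      rw [this]
      exact he)
    obtain ⟨m, hm⟩ := tor_attain (M := M) (x := g * X p i j + g * (b * k + (a - b) * J)) hM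
      (h0 u hu).1
    set r : ℤ := (fa p - b * q p j + i) / (a : ℤ) with hrdef
    have hqj : (fb p + j) / (c : ℤ) = q p j := rfl
    rw [hqj] at hdb
    change fb p + j = c * q p j + (Y p j : ℤ) at hdb
    change fa p - b * q p j + i = a * r + (X p i j : ℤ) at hda
    generalize hQ : q p j = Q at hda hdb
    generalize hXX : X p i j = x at hda hR hm
    generalize hYY : Y p j = y at hdb hR
    refine ⟨(((u.1 : ℝ) + g * (a * ((r - J - m : ℤ) : ℝ) + b * ((Q - k + J : ℤ) : ℝ))) / g - i,
      ((u.2 : ℝ) + g * (c * ((Q - k + J : ℤ) : ℝ))) / g - j),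
      ⟨u, hu, r - J - m, Q - k + J, rfl, rfl⟩, ?_⟩
    have hR' : (((g * x + g * (b * k + (a - b) * J) : ℕ) : ℤ) - u.1 + M * m) ^ 2 +
        (((g * y + g * c * k : ℕ) : ℤ) - ((u.2 + g * c * J : ℕ) : ℤ)) ^ 2 ≤ (R : ℤ) := by
      rw [← sq_abs, hm, ← ds_eq]
      exact_mod_cast hR
    have e7 : ((g * x + g * (b * k + (a - b) * J) : ℕ) : ℤ) - u.1 + M * m =
        g * (fa p + i) - (u.1 + g * (a * (r - J - m) + b * (Q - k + J))) := by
      have : (x : ℤ) = fa p - b * Q + i - a * r := by linarith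
      rw [hMz]
      push_cast [Nat.cast_sub hba]
      rw [this]
      ring
    have e8 : ((g * y + g * c * k : ℕ) : ℤ) - ((u.2 + g * c * J : ℕ) : ℤ) =
        g * (fb p + j) - (u.2 + g * (c * (Q - k + J))) := by
      have : (y : ℤ) = fb p + j - c * Q := by linarith
      push_cast
      rw [this]
      ring
    rw [e7, e8] at hR'
    have hR2 : ((g : ℝ) * (fa p + i) - (u.1 + g * (a * (r - J - m) + b * (Q - k + J)))) ^ 2 +
        ((g : ℝ) * (fb p + j) - (u.2 + g * (c * (Q - k + J)))) ^ 2 ≤ (R : ℝ) := by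
      exact_mod_cast hR'
    simp only
    rw [le_div_iff₀ hg2]
    refine le_trans (le_of_eq ?_) hR2
    push_cast
    field_simp
    ring
  · rw [← mul_div_assoc, le_div_iff₀ hg2]
    exact hs
  · rw [← mul_div_assoc, div_le_iff₀ hg2, one_mul]
    exact hr

/-- d ≥ 0.6507 -/
theorem q1 : chkT 6 9 1 3 2 340 82 13 [(15, 17), (30, 6), (51, 13)]
    [(3, 1), (7, 1)] = true := by
  decide +kernel

/-- d ≥ 0.6324 -/
theorem q2 : chkT 6 28 3 1 4 360 85 13 [(0, 5), (48, 1), (99, 0)]
    [(2, 0), (3, 0)] = true := by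
  decide +kernel

/-- d ≥ 0.5547, the sets of twelve points -/
theorem q3 : chkT 2 4 2 3 2 52 10 13 [(3, 3)]
    [] = true := by
  decide +kernel

/-- d ≥ 0.5465 -/
theorem q4 : chkT 6 10 5 5 1 482 109 13 [(9, 8), (20, 27), (39, 16), (58, 27)]
    [(4, 2), (9, 2)] = true := by
  decide +kernel

/-- d ≥ 0.5390 -/
theorem q5 : chkT 8 4 2 16 1 881 212 13 [(20, 123), (4, 98), (4, 46), (20, 72), (20, 21)]
    [(2, 7), (2, 11), (3, 7), (3, 11)] = true := by
  decide +kernel

/-- d ≥ 0.5322 -/
theorem q6 : chkT 10 4 0 7 1 1412 338 13 [(17, 37), (33, 3)]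
    [(0, 5), (1, 6)] = true := by
  decide +kernel

/-- d ≥ 0.5302 -/
theorem q7 : chkT 7 4 0 7 1 697 169 13 [(12, 26), (23, 2)]
    [(0, 5), (1, 6)] = true := by
  decide +kernel

/-- d ≥ 0.5144 -/
theorem q8 : chkT 6 4 0 7 1 544 128 13 [(2, 38), (14, 16)]
    [(0, 4), (2, 5)] = true := by
  decide +kernel

/-- d ≥ 0.5 -/
theorem q9 : chkT 4 4 0 7 1 256 58 13 [(1, 27), (9, 13)]
    [(0, 2), (2, 1)] = true := by
  decide +kernel

/-- d ≥ 0.4850 -/
theorem q10 : chkT 4 15 7 2 3 272 61 13 [(2, 1), (46, 5)]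
    [(3, 1), (7, 0)] = true := by
  decide +kernel

/-- d ≥ 0.4649 -/
theorem q11 : chkT 4 34 9 1 5 296 68 13 [(58, 0), (76, 2)]
    [(3, 0), (26, 0)] = true := by
  decide +kernel

/-- d ≥ 0.4601 -/
theorem q12 : chkT 6 50 13 1 5 680 164 13 [(130, 0), (156, 2), (182, 4)]
    [(2, 0), (37, 0), (41, 0)] = true := by
  decide +kernel

/-- d ≥ 0.4472 -/
theorem q13 : chkT 6 27 4 2 3 720 169 13 [(60, 9), (151, 0), (107, 6)]
    [(1, 0), (15, 1), (20, 0), (23, 1)] = true := by
  decide +kernel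

/-- d ≥ 0.4239 -/
theorem q14 : chkT 4 5 0 8 1 356 80 13 [(0, 0), (10, 16)]
    [(0, 3), (0, 4), (0, 5)] = true := by
  decide +kernel

/-- d ≥ 0.4140 -/
theorem q15 : chkT 10 43 10 1 5 2333 548 13 [(150, 9), (102, 2)]
    [(18, 0), (23, 0), (35, 0)] = true := by
  decide +kernel

/-- d ≥ 0.4061 -/
theorem q16 : chkT 6 43 10 1 5 873 208 13 [(36, 1), (66, 4)]
    [(19, 0), (23, 0), (31, 0)] = true := by
  decide +kernel

theorem coverable_mono {A B : Set Plane} (h : A ⊆ B) (hB : Coverable B) : Coverable A := by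
  obtain ⟨C, h1, h2⟩ := hB
  exact ⟨C, h1, h.trans h2⟩

/-- Every set of at most thirteen points of a square lattice `L_d` with spacing
`d ≥ √(16 / 97) = 0.4061...` is coverable. -/
theorem result (d : ℝ) (hd : Real.sqrt (16 / 97) ≤ d) (A : Finset Plane) (hA : A.card ≤ 13)
    (hAd : (A : Set Plane) ⊆ sqLattice d) : Coverable (A : Set Plane) := by
  have hd0 : 0 < d := (Real.sqrt_pos.2 (by norm_num)).trans_le hd
  have h0 : 16 / 97 ≤ d ^ 2 := (Real.sqrt_le_left hd0.le).1 hd
  rcases le_or_gt (d ^ 2) (9 / 52) with k15 | k15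
  · exact of_chkT q16 (by norm_num) (by norm_num) (by norm_num) d (by push_cast; linarith)
      (by push_cast; linarith) A hA hAd
  rcases le_or_gt (d ^ 2) (25 / 137) with k14 | k14
  · exact of_chkT q15 (by norm_num) (by norm_num) (by norm_num) d (by push_cast; linarith)
      (by push_cast; linarith) A hA hAd
  rcases le_or_gt (d ^ 2) (1 / 5) with k13 | k13
  · exact of_chkT q14 (by norm_num) (by norm_num) (by norm_num) d (by push_cast; linarith)
      (by push_cast; linarith) A hA hAd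
  rcases le_or_gt (d ^ 2) (36 / 169) with k12 | k12
  · exact of_chkT q13 (by norm_num) (by norm_num) (by norm_num) d (by push_cast; linarith)
      (by push_cast; linarith) A hA hAd
  rcases le_or_gt (d ^ 2) (9 / 41) with k11 | k11
  · exact of_chkT q12 (by norm_num) (by norm_num) (by norm_num) d (by push_cast; linarith)
      (by push_cast; linarith) A hA hAd
  rcases le_or_gt (d ^ 2) (4 / 17) with k10 | k10
  · exact of_chkT q11 (by norm_num) (by norm_num) (by norm_num) d (by push_cast; linarith)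
      (by push_cast; linarith) A hA hAd
  rcases le_or_gt (d ^ 2) (16 / 61) with k9 | k9
  · exact of_chkT q10 (by norm_num) (by norm_num) (by norm_num) d (by push_cast; linarith)
      (by push_cast; linarith) A hA hAd
  rcases le_or_gt (d ^ 2) (8 / 29) with k8 | k8
  · exact of_chkT q9 (by norm_num) (by norm_num) (by norm_num) d (by push_cast; linarith)
      (by push_cast; linarith) A hA hAd
  rcases le_or_gt (d ^ 2) (9 / 32) with k7 | k7
  · exact of_chkT q8 (by norm_num) (by norm_num) (by norm_num) d (by push_cast; linarith)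
      (by push_cast; linarith) A hA hAd
  rcases le_or_gt (d ^ 2) (49 / 169) with k6 | k6
  · exact of_chkT q7 (by norm_num) (by norm_num) (by norm_num) d (by push_cast; linarith)
      (by push_cast; linarith) A hA hAd
  rcases le_or_gt (d ^ 2) (50 / 169) with k5 | k5
  · exact of_chkT q6 (by norm_num) (by norm_num) (by norm_num) d (by push_cast; linarith)
      (by push_cast; linarith) A hA hAd
  rcases le_or_gt (d ^ 2) (16 / 53) with k4 | k4
  · exact of_chkT q5 (by norm_num) (by norm_num) (by norm_num) d (by push_cast; linarith)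
      (by push_cast; linarith) A hA hAd
  rcases le_or_gt (d ^ 2) (36 / 109) with k3 | k3
  · exact of_chkT q4 (by norm_num) (by norm_num) (by norm_num) d (by push_cast; linarith)
      (by push_cast; linarith) A hA hAd
  rcases le_or_gt (d ^ 2) (2 / 5) with k2 | k2
  · exact of_chkT q3 (by norm_num) (by norm_num) (by norm_num) d (by push_cast; linarith)
      (by push_cast; linarith) A hA hAd
  rcases le_or_gt (d ^ 2) (36 / 85) with k1 | k1
  · exact of_chkT q2 (by norm_num) (by norm_num) (by norm_num) d (by push_cast; linarith)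
      (by push_cast; linarith) A hA hAd
  rcases le_or_gt (d ^ 2) (18 / 41) with k0 | k0
  · exact of_chkT q1 (by norm_num) (by norm_num) (by norm_num) d (by push_cast; linarith)
      (by push_cast; linarith) A hA hAd
  refine coverable_mono hAd (WideSpacing.result d ?_)
  rw [div_le_iff₀ (Real.sqrt_pos.2 (by norm_num))]
  have : (4 : ℝ) = Real.sqrt 16 := by
    rw [show (16 : ℝ) = 4 ^ 2 by norm_num, Real.sqrt_sq (by norm_num)]
  rw [this]
  rw [← Real.sqrt_sq hd0.le, ← Real.sqrt_mul (sq_nonneg d)]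
  exact Real.sqrt_le_sqrt (by linarith)

end Pool.Agent.Results.MP_8ced64_co.ThirteenPoints
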