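import Mathlib

/-!
# MP_8ced64_co: every square lattice with spacing at least `4 / √37` is coverable as a whole

For every `d ≥ 4 / √37` there is a periodic packing of unit disks which covers the whole square
lattice `L_d`. Ten packings (dominoes, blocks, crosses, herringbone, ...) with rational centres
(in units of `d`) are checked by a finite computation, `chk`.
-/

set_option autoImplicit false

namespace Pool.Agent.Results.MP_8ced64_co.WideSpacing

open Metric

/-- The Euclidean plane. -/
abbrev Plane : Type := EuclideanSpace ℝ (Fin 2)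

/-- `S` is coverable: there is a set of centres of closed unit disks with pairwise disjoint
interiors whose union contains `S`. -/
def Coverable (S : Set Plane) : Prop :=
  ∃ C : Set Plane,
    (C.Pairwise fun c c' => Disjoint (interior (closedBall c 1)) (interior (closedBall c' 1))) ∧
    S ⊆ ⋃ c ∈ C, closedBall c 1

/-- The square lattice `L_d`. -/
def sqLattice (d : ℝ) : Set Plane :=
  {p | ∃ a b : ℤ, p 0 = d * a ∧ p 1 = d * b}

theorem disj_iff (c c' : Plane) :
    Disjoint (interior (closedBall c 1)) (interior (closedBall c' 1)) ↔ 2 ≤ dist c c' := by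
  rw [interior_closedBall _ one_ne_zero, interior_closedBall _ one_ne_zero,
    disjoint_ball_ball_iff zero_lt_one zero_lt_one]
  norm_num

theorem dist_sq (p q : Plane) : dist p q ^ 2 = (p 0 - q 0) ^ 2 + (p 1 - q 1) ^ 2 := by
  rw [EuclideanSpace.dist_eq, Fin.sum_univ_two, Real.sq_sqrt (by positivity), Real.dist_eq,
    Real.dist_eq, sq_abs, sq_abs]

/-- A pattern of centres gives a covering of `L_d`. -/
theorem pattern (d : ℝ) (C : Set (ℝ × ℝ)) (s r : ℝ)
    (hsep : ∀ c ∈ C, ∀ c' ∈ C, c ≠ c' → s ≤ (c.1 - c'.1) ^ 2 + (c.2 - c'.2) ^ 2)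
    (hcov : ∀ a b : ℤ, ∃ c ∈ C, ((a : ℝ) - c.1) ^ 2 + (b - c.2) ^ 2 ≤ r)
    (hs : 4 ≤ d ^ 2 * s) (hr : d ^ 2 * r ≤ 1) : Coverable (sqLattice d) := by
  refine ⟨(fun c : ℝ × ℝ => (!₂[d * c.1, d * c.2] : Plane)) '' C, ?_, ?_⟩
  · rintro _ ⟨c, hc, rfl⟩ _ ⟨c', hc', rfl⟩ hne
    have hcc : c ≠ c' := fun h => hne (by rw [h])
    have h1 := hsep c hc c' hc' hcc
    rw [disj_iff]
    refine abs_le_of_sq_le_sq' ?_ dist_nonneg |>.2
    rw [dist_sq]
    simp only [Matrix.cons_val_zero, Matrix.cons_val_one, Matrix.cons_val_fin_one]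
    nlinarith [mul_le_mul_of_nonneg_left h1 (sq_nonneg d)]
  · rintro p ⟨a, b, ha, hb⟩
    obtain ⟨c, hc, h⟩ := hcov a b
    simp only [Set.mem_iUnion]
    refine ⟨_, ⟨c, hc, rfl⟩, ?_⟩
    rw [mem_closedBall]
    refine abs_le_of_sq_le_sq' ?_ zero_le_one |>.2
    rw [dist_sq]
    simp only [Matrix.cons_val_zero, Matrix.cons_val_one, Matrix.cons_val_fin_one]
    rw [ha, hb]
    nlinarith [mul_le_mul_of_nonneg_left h (sq_nonneg d)]

/-- Distance on the cycle of length `M`. -/
def tor (M x y : ℕ) : ℕ := min ((x + M - y) % M) (M - (x + M - y) % M)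

theorem tor_le {M x y : ℕ} (hM : 0 < M) (hy : y ≤ M) (m : ℤ) :
    ((tor M x y : ℕ) : ℤ) ≤ |(x : ℤ) - y + M * m| := by
  set r := (x + M - y) % M with hr
  have hrM : r < M := Nat.mod_lt _ hM
  have hdm := Nat.div_add_mod (x + M - y) M
  set k := (x + M - y) / M with hk
  have h1 : (x : ℤ) + M - y = M * k + r := by
    have : ((x + M - y : ℕ) : ℤ) = x + M - y := by omega
    rw [← this, ← hdm]
    push_cast
    rw [hr]
    push_cast
    rfl
  have h2 : (x : ℤ) - y + M * m = M * (k - 1 + m) + r := by linarith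
  rw [h2]
  have ht : ((tor M x y : ℕ) : ℤ) = min (r : ℤ) ((M : ℤ) - r) := by
    simp only [tor, ← hr]
    push_cast
    rw [Nat.cast_sub hrM.le]
  rw [ht]
  have hr0 : (0 : ℤ) ≤ r := Int.natCast_nonneg _
  have hrM' : (r : ℤ) < M := by exact_mod_cast hrM
  rcases le_or_gt 0 ((k : ℤ) - 1 + m) with h | h
  · refine (min_le_left _ _).trans ((le_abs_self _).trans' ?_)
    nlinarith
  · refine (min_le_right _ _).trans ((neg_le_abs _).trans' ?_)
    have : (k : ℤ) - 1 + m ≤ -1 := by omega
    nlinarith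

theorem tor_attain {M x y : ℕ} (hM : 0 < M) (hy : y ≤ M) :
    ∃ m : ℤ, |(x : ℤ) - y + M * m| = ((tor M x y : ℕ) : ℤ) := by
  set r := (x + M - y) % M with hr
  have hrM : r < M := Nat.mod_lt _ hM
  have hdm := Nat.div_add_mod (x + M - y) M
  set k := (x + M - y) / M with hk
  have h1 : (x : ℤ) + M - y = M * k + r := by
    have : ((x + M - y : ℕ) : ℤ) = x + M - y := by omega
    rw [← this, ← hdm]
    push_cast
    rw [hr]
    push_cast
    rfl
  have ht : ((tor M x y : ℕ) : ℤ) = min (r : ℤ) ((M : ℤ) - r) := by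
    simp only [tor, ← hr]
    push_cast
    rw [Nat.cast_sub hrM.le]
  have hr0 : (0 : ℤ) ≤ r := Int.natCast_nonneg _
  have hrM' : (r : ℤ) < M := by exact_mod_cast hrM
  rw [ht]
  rcases le_total (r : ℤ) (M - r) with h | h
  · refine ⟨1 - k, ?_⟩
    have : (x : ℤ) - y + M * (1 - k) = r := by linarith
    rw [this, min_eq_left h, abs_of_nonneg hr0]
  · refine ⟨-k, ?_⟩
    have : (x : ℤ) - y + M * (-k) = r - M := by linarith
    rw [this, min_eq_right h, abs_of_nonpos (by linarith)]
    ring

/-- The finite check of a periodic pattern: centres `D` in units `1 / g`, period `P`, squared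
separation `S / g ^ 2`, squared covering radius `R / g ^ 2`. -/
def chk (g P S R : ℕ) (D : List (ℕ × ℕ)) : Bool :=
  (D.all fun c => Nat.ble c.1 (g * P) && Nat.ble c.2 (g * P)) &&
  (D.all fun c => D.all fun e => (Nat.beq c.1 e.1 && Nat.beq c.2 e.2) ||
    Nat.ble S (tor (g * P) c.1 e.1 ^ 2 + tor (g * P) c.2 e.2 ^ 2)) &&
  ((List.range P).all fun a => (List.range P).all fun b => D.any fun c =>
    Nat.ble (tor (g * P) (g * a) c.1 ^ 2 + tor (g * P) (g * b) c.2 ^ 2) R) &&
  Nat.ble S ((g * P) ^ 2)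

theorem of_chk {g P S R : ℕ} {D : List (ℕ × ℕ)} (h : chk g P S R D = true) (hg : 0 < g)
    (hP : 0 < P) (d : ℝ) (hs : 4 * (g : ℝ) ^ 2 ≤ d ^ 2 * S) (hr : d ^ 2 * R ≤ (g : ℝ) ^ 2) :
    Coverable (sqLattice d) := by
  simp only [chk, Bool.and_eq_true, List.all_eq_true, Nat.ble_eq, Bool.or_eq_true,
    Nat.beq_eq, List.any_eq_true, List.mem_range] at h
  obtain ⟨⟨⟨h0, h1⟩, h2⟩, h3⟩ := h
  set M := g * P with hMdef
  have hM : 0 < M := Nat.mul_pos hg hP
  have hgR : (0 : ℝ) < g := by exact_mod_cast hg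
  have hg2 : (0 : ℝ) < (g : ℝ) ^ 2 := by positivity
  refine pattern d {c | ∃ e ∈ D, ∃ m n : ℤ, c.1 = ((e.1 : ℝ) + M * m) / g ∧
    c.2 = ((e.2 : ℝ) + M * n) / g} (S / g ^ 2) (R / g ^ 2) ?_ ?_ ?_ ?_
  · rintro ⟨c1, c2⟩ ⟨e, he, m, n, hc1, hc2⟩ ⟨c1', c2'⟩ ⟨e', he', m', n', hc1', hc2'⟩ hne
    simp only at hc1 hc2 hc1' hc2' ⊢
    have key : (S : ℤ) ≤ ((e.1 : ℤ) - e'.1 + M * (m - m')) ^ 2 +
        ((e.2 : ℤ) - e'.2 + M * (n - n')) ^ 2 := by
      rcases h1 e he e' he' with ⟨ha, hb⟩ | hS
      · have hmn : m ≠ m' ∨ n ≠ n' := by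
          by_contra hcon
          push Not at hcon
          apply hne
          rw [hc1, hc2, hc1', hc2', ha, hb, hcon.1, hcon.2]
        have hS2 : (S : ℤ) ≤ (M : ℤ) ^ 2 := by exact_mod_cast h3
        rw [ha, hb, sub_self, sub_self, zero_add, zero_add, mul_pow, mul_pow]
        have hsq : ∀ t : ℤ, t ≠ 0 → 1 ≤ t ^ 2 := fun t ht => by
          have := pow_pos (abs_pos.2 ht) 2
          rw [sq_abs] at this
          omega
        rcases hmn with hm | hn
        · have := hsq (m - m') (sub_ne_zero.2 hm)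
          nlinarith [sq_nonneg ((M : ℤ)), sq_nonneg ((M : ℤ) * (n - n'))]
        · have := hsq (n - n') (sub_ne_zero.2 hn)
          nlinarith [sq_nonneg ((M : ℤ)), sq_nonneg ((M : ℤ) * (m - m'))]
      · have hS' : (S : ℤ) ≤ (tor M e.1 e'.1 : ℤ) ^ 2 + (tor M e.2 e'.2 : ℤ) ^ 2 := by
          exact_mod_cast hS
        refine hS'.trans (add_le_add ?_ ?_)
        · rw [← sq_abs ((e.1 : ℤ) - e'.1 + M * (m - m'))]
          exact pow_le_pow_left₀ (Int.natCast_nonneg _) (tor_le hM (h0 e' he').1 _) 2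
        · rw [← sq_abs ((e.2 : ℤ) - e'.2 + M * (n - n'))]
          exact pow_le_pow_left₀ (Int.natCast_nonneg _) (tor_le hM (h0 e' he').2 _) 2
    have key' : (S : ℝ) ≤ ((e.1 : ℝ) - e'.1 + M * (m - m')) ^ 2 +
        ((e.2 : ℝ) - e'.2 + M * (n - n')) ^ 2 := by exact_mod_cast key
    rw [hc1, hc2, hc1', hc2', div_le_iff₀ hg2]
    refine key'.trans (le_of_eq ?_)
    field_simp
    ring
  · intro a b
    have hPz : (0 : ℤ) < P := by exact_mod_cast hP
    have ha0 := Int.emod_nonneg a hPz.ne'
    have hb0 := Int.emod_nonneg b hPz.ne'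
    have ha1 := Int.emod_lt_of_pos a hPz
    have hb1 := Int.emod_lt_of_pos b hPz
    obtain ⟨α, hα⟩ := Int.eq_ofNat_of_zero_le ha0
    obtain ⟨β, hβ⟩ := Int.eq_ofNat_of_zero_le hb0
    have hda := Int.mul_ediv_add_emod a P
    have hdb := Int.mul_ediv_add_emod b P
    rw [hα] at hda
    rw [hβ] at hdb
    obtain ⟨c, hc, hR⟩ := h2 α (by omega) β (by omega)
    obtain ⟨m, hm⟩ := tor_attain (M := M) (x := g * α) hM (h0 c hc).1
    obtain ⟨n, hn⟩ := tor_attain (M := M) (x := g * β) hM (h0 c hc).2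
    refine ⟨(((c.1 : ℝ) + M * ((a / P - m : ℤ) : ℝ)) / g,
      ((c.2 : ℝ) + M * ((b / P - n : ℤ) : ℝ)) / g),
      ⟨c, hc, a / P - m, b / P - n, rfl, rfl⟩, ?_⟩
    have hR' : (((g * α : ℕ) : ℤ) - c.1 + M * m) ^ 2 + (((g * β : ℕ) : ℤ) - c.2 + M * n) ^ 2 ≤
        (R : ℤ) := by
      rw [← sq_abs, hm, ← sq_abs (((g * β : ℕ) : ℤ) - c.2 + M * n), hn]
      exact_mod_cast hR
    have hR2 : (((g : ℝ) * α) - c.1 + M * m) ^ 2 + (((g : ℝ) * β) - c.2 + M * n) ^ 2 ≤
        (R : ℝ) := by exact_mod_cast hR'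
    have hda' : (a : ℝ) = P * ((a / P : ℤ) : ℝ) + α := by exact_mod_cast hda.symm
    have hdb' : (b : ℝ) = P * ((b / P : ℤ) : ℝ) + β := by exact_mod_cast hdb.symm
    have hMr : (M : ℝ) = g * P := by rw [hMdef]; push_cast; ring
    have e1 : (a : ℝ) - ((c.1 : ℝ) + M * ((a / P - m : ℤ) : ℝ)) / g =
        (((g : ℝ) * α) - c.1 + M * m) / g := by
      push_cast
      rw [hda', hMr]
      field_simp
      ring
    have e2 : (b : ℝ) - ((c.2 : ℝ) + M * ((b / P - n : ℤ) : ℝ)) / g =
        (((g : ℝ) * β) - c.2 + M * n) / g := by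
      push_cast
      rw [hdb', hMr]
      field_simp
      ring
    simp only
    rw [e1, e2, div_pow, div_pow, ← add_div]
    exact div_le_div_of_nonneg_right hR2 hg2.le
  · rw [← mul_div_assoc, le_div_iff₀ hg2]
    exact hs
  · rw [← mul_div_assoc, div_le_iff₀ hg2, one_mul]
    exact hr


/-- single points, `d ≥ 2` -/
theorem chk1 : chk 1 1 1 0 [(0, 0)] = true := by decide +kernel

/-- dominoes in a brick pattern -/
theorem chk2 : chk 2 2 8 1 [(1, 0), (3, 2)] = true := by decide +kernel

/-- squares of four points -/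
theorem chk3 : chk 2 2 16 2 [(1, 1)] = true := by decide +kernel

/-- crosses of five points -/
theorem chk4 : chk 1 5 5 1 [(0, 0), (1, 3), (2, 1), (3, 4), (4, 2)] = true := by decide +kernel

/-- blocks of six points, herringbone -/
theorem chk5 : chk 2 12 26 5 [(0, 13), (1, 18), (2, 23), (3, 4), (4, 9), (5, 14), (6, 19),
    (7, 0), (8, 5), (9, 10), (10, 15), (11, 20), (12, 1), (13, 6), (14, 11), (15, 16), (16, 21),
    (17, 2), (18, 7), (19, 12), (20, 17), (21, 22), (22, 3), (23, 8)] = true := by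
  decide +kernel

/-- sets of seven points -/
theorem chk6 : chk 4 14 116 25 [(0, 5), (4, 15), (8, 25), (12, 35), (16, 45), (20, 55), (24, 9),
    (28, 19), (32, 29), (36, 39), (40, 49), (44, 3), (48, 13), (52, 23), (0, 33), (4, 43),
    (8, 53), (12, 7), (16, 17), (20, 27), (24, 37), (28, 47), (32, 1), (36, 11), (40, 21),
    (44, 31), (48, 41), (52, 51)] = true := by
  decide +kernel

/-- 112 centres modulo `28` -/
theorem chk7 : chk 6 28 281 65 [(0, 46), (2, 107), (4, 0), (5, 62), (6, 124), (8, 17), (10, 78),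
    (11, 140), (12, 34), (14, 95), (16, 156), (17, 50), (18, 112), (20, 5), (22, 66), (23, 128),
    (24, 22), (26, 83), (28, 144), (29, 38), (30, 100), (32, 161), (34, 54), (35, 116), (36, 10),
    (38, 71), (40, 132), (41, 26), (42, 88), (44, 149), (46, 42), (47, 104), (48, 166), (50, 59),
    (52, 120), (53, 14), (54, 76), (56, 137), (58, 30), (59, 92), (60, 154), (62, 47), (64, 108),
    (65, 2), (66, 64), (68, 125), (70, 18), (71, 80), (72, 142), (74, 35), (76, 96), (77, 158),
    (78, 52), (80, 113), (82, 6), (83, 68), (84, 130), (86, 23), (88, 84), (89, 146), (90, 40),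
    (92, 101), (94, 162), (95, 56), (96, 118), (98, 11), (100, 72), (101, 134), (102, 28),
    (104, 89), (106, 150), (107, 44), (108, 106), (110, 167), (112, 60), (113, 122), (114, 16),
    (116, 77), (118, 138), (119, 32), (120, 94), (122, 155), (124, 48), (125, 110), (126, 4),
    (128, 65), (130, 126), (131, 20), (132, 82), (134, 143), (136, 36), (137, 98), (138, 160),
    (140, 53), (142, 114), (143, 8), (144, 70), (146, 131), (148, 24), (149, 86), (150, 148),
    (152, 41), (154, 102), (155, 164), (156, 58), (158, 119), (160, 12), (161, 74), (162, 136),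
    (164, 29), (166, 90), (167, 152)] = true := by
  decide +kernel

/-- a lattice of density `1 / 7` -/
theorem chk8 : chk 8 28 512 122 [(1, 61), (3, 143), (5, 1), (7, 83), (9, 165), (11, 23),
    (13, 105), (15, 187), (17, 45), (19, 127), (21, 209), (23, 67), (25, 149), (27, 7), (29, 89),
    (31, 171), (33, 29), (35, 111), (37, 193), (39, 51), (41, 133), (43, 215), (45, 73),
    (47, 155), (49, 13), (51, 95), (53, 177), (55, 35), (57, 117), (59, 199), (61, 57),
    (63, 139), (65, 221), (67, 79), (69, 161), (71, 19), (73, 101), (75, 183), (77, 41),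
    (79, 123), (81, 205), (83, 63), (85, 145), (87, 3), (89, 85), (91, 167), (93, 25), (95, 107),
    (97, 189), (99, 47), (101, 129), (103, 211), (105, 69), (107, 151), (109, 9), (111, 91),
    (113, 173), (115, 31), (117, 113), (119, 195), (121, 53), (123, 135), (125, 217), (127, 75),
    (129, 157), (131, 15), (133, 97), (135, 179), (137, 37), (139, 119), (141, 201), (143, 59),
    (145, 141), (147, 223), (149, 81), (151, 163), (153, 21), (155, 103), (157, 185), (159, 43),
    (161, 125), (163, 207), (165, 65), (167, 147), (169, 5), (171, 87), (173, 169), (175, 27),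
    (177, 109), (179, 191), (181, 49), (183, 131), (185, 213), (187, 71), (189, 153), (191, 11),
    (193, 93), (195, 175), (197, 33), (199, 115), (201, 197), (203, 55), (205, 137), (207, 219),
    (209, 77), (211, 159), (213, 17), (215, 99), (217, 181), (219, 39), (221, 121), (223, 203)] =
    true := by
  decide +kernel

/-- squares of nine points -/
theorem chk9 : chk 1 3 9 2 [(1, 1)] = true := by
  decide +kernel

/-- two centres modulo a lattice of index `17` -/
theorem chk10 : chk 6 17 333 81 [(0, 0), (3, 18), (6, 36), (9, 54), (12, 72), (15, 90), (18, 6),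
    (21, 24), (24, 42), (27, 60), (30, 78), (33, 96), (36, 12), (39, 30), (42, 48), (45, 66),
    (48, 84), (51, 0), (54, 18), (57, 36), (60, 54), (63, 72), (66, 90), (69, 6), (72, 24),
    (75, 42), (78, 60), (81, 78), (84, 96), (87, 12), (90, 30), (93, 48), (96, 66), (99, 84)] =
    true := by
  decide +kernel

/-- Every square lattice `L_d` with spacing `d ≥ 4 / √37 = 0.6575...` is coverable as a whole:
finitely or infinitely many points of it are always coverable. -/
theorem result (d : ℝ) (hd : 4 / Real.sqrt 37 ≤ d) : Coverable (sqLattice d) := by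
  have h0 : 16 / 37 ≤ d ^ 2 := by
    have h37 : (0 : ℝ) < Real.sqrt 37 := Real.sqrt_pos.2 (by norm_num)
    have h := mul_self_le_mul_self (div_nonneg (by norm_num) h37.le) hd
    have e : 4 / Real.sqrt 37 * (4 / Real.sqrt 37) = 16 / 37 := by
      rw [div_mul_div_comm, Real.mul_self_sqrt (by norm_num)]
      norm_num
    rw [e] at h
    nlinarith
  rcases le_or_gt (d ^ 2) (4 / 9) with h' | h'
  · exact of_chk chk10 (by norm_num) (by norm_num) d (by push_cast; linarith)
      (by push_cast; linarith)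
  rcases le_or_gt (d ^ 2) (1 / 2) with h | h
  · exact of_chk chk9 (by norm_num) (by norm_num) d (by push_cast; linarith)
      (by push_cast; linarith)
  rcases le_or_gt (d ^ 2) (32 / 61) with h1 | h1
  · exact of_chk chk8 (by norm_num) (by norm_num) d (by push_cast; linarith)
      (by push_cast; linarith)
  rcases le_or_gt (d ^ 2) (36 / 65) with h2 | h2
  · exact of_chk chk7 (by norm_num) (by norm_num) d (by push_cast; linarith)
      (by push_cast; linarith)
  rcases le_or_gt (d ^ 2) (16 / 25) with h3 | h3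
  · exact of_chk chk6 (by norm_num) (by norm_num) d (by push_cast; linarith)
      (by push_cast; linarith)
  rcases le_or_gt (d ^ 2) (4 / 5) with h4 | h4
  · exact of_chk chk5 (by norm_num) (by norm_num) d (by push_cast; linarith)
      (by push_cast; linarith)
  rcases le_or_gt (d ^ 2) 1 with h5 | h5
  · exact of_chk chk4 (by norm_num) (by norm_num) d (by push_cast; linarith)
      (by push_cast; linarith)
  rcases le_or_gt (d ^ 2) 2 with h6 | h6
  · exact of_chk chk3 (by norm_num) (by norm_num) d (by push_cast; linarith)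
      (by push_cast; linarith)
  rcases le_or_gt (d ^ 2) 4 with h7 | h7
  · exact of_chk chk2 (by norm_num) (by norm_num) d (by push_cast; linarith)
      (by push_cast; linarith)
  · exact of_chk chk1 (by norm_num) (by norm_num) d (by push_cast; linarith)
      (by push_cast; linarith)

end Pool.Agent.Results.MP_8ced64_co.WideSpacing
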